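import Mathlib

/-!
Packed counters: sixteen or more small counters are stored as base 64 digits of one natural number,
and a recursion over the columns checks every sign vector.
-/

namespace Pool.Agent.Lib.MP_ad55ca_co

/-- Recursion over the columns; at the end, the three-number test on the accumulated counters. -/
def go (H K1 K2 : ℕ) : List (ℕ × ℕ) → ℕ → Bool
  | [], s => !(Nat.beq (Nat.land (s + K1) H) 0 && Nat.beq (Nat.land (s + K2) H) H)
  | (p, q) :: t, s => go H K1 K2 t (s + p) && go H K1 K2 t (s + q)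

/-- The sum of the chosen components. -/
def pick : List (ℕ × ℕ) → (ℕ → Bool) → ℕ
  | [], _ => 0
  | (p, q) :: t, b => (if b 0 then p else q) + pick t (fun i => b (i + 1))

theorem go_sound (H K1 K2 : ℕ) : ∀ (l : List (ℕ × ℕ)) (s : ℕ) (b : ℕ → Bool),
    go H K1 K2 l s = true →
    ¬ (Nat.land (s + pick l b + K1) H = 0 ∧ Nat.land (s + pick l b + K2) H = H) := by
  intro l
  induction l with
  | nil =>
    intro s b h
    simp only [go, Bool.not_eq_true', Bool.and_eq_false_iff] at h
    simp only [pick, Nat.add_zero]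
    rintro ⟨h1, h2⟩
    rw [h1, h2] at h
    simp at h
  | cons pq t ih =>
    obtain ⟨p, q⟩ := pq
    intro s b h
    simp only [go, Bool.and_eq_true] at h
    simp only [pick]
    by_cases hb : b 0
    · simp only [hb, if_true]
      rw [← Nat.add_assoc]
      exact ih (s + p) _ h.1
    · simp only [hb, if_false, Bool.false_eq_true]
      rw [← Nat.add_assoc]
      exact ih (s + q) _ h.2

theorem pick_ofFn : ∀ (n : ℕ) (f : ℕ → ℕ × ℕ) (b : ℕ → Bool),
    pick ((List.range n).map f) b = ∑ j ∈ Finset.range n, (if b j then (f j).1 else (f j).2) := by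
  intro n
  induction n with
  | zero => intro f b; simp [pick]
  | succ n ih =>
    intro f b
    rw [List.range_succ_eq_map, List.map_cons, List.map_map, Finset.sum_range_succ']
    simp only [pick]
    have := ih (f ∘ Nat.succ) (fun i => b (i + 1))
    rw [this, Nat.add_comm]
    rfl

theorem land_high (m a b T U : ℕ) (hT : T < 2 ^ m) (hU : U < 2 ^ m) :
    Nat.land (2 ^ m * a + T) (2 ^ m * b + U) = 2 ^ m * Nat.land a b + Nat.land T U := by
  have hTU : Nat.land T U < 2 ^ m := by
    have : T &&& U < 2 ^ m := Nat.and_lt_two_pow _ hU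
    exact this
  apply Nat.eq_of_testBit_eq
  intro i
  have h1 : Nat.land (2 ^ m * a + T) (2 ^ m * b + U) = (2 ^ m * a + T) &&& (2 ^ m * b + U) := rfl
  have h2 : Nat.land a b = a &&& b := rfl
  have h3 : Nat.land T U = T &&& U := rfl
  rw [h1, Nat.testBit_and, Nat.testBit_two_pow_mul_add _ hT, Nat.testBit_two_pow_mul_add _ hU,
    Nat.testBit_two_pow_mul_add _ hTU, h2, h3, Nat.testBit_and, Nat.testBit_and]
  by_cases hi : i < m <;> simp [hi]

theorem sum_lt (f : ℕ → ℕ) : ∀ m : ℕ, (∀ i < m, f i < 64) →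
    ∑ i ∈ Finset.range m, 64 ^ i * f i < 2 ^ (6 * m) := by
  intro m
  induction m with
  | zero => intro _; simp
  | succ m ih =>
    intro h
    rw [Finset.sum_range_succ]
    have h1 := ih (fun i hi => h i (by omega))
    have h2 := h m (by omega)
    have h3 : (2:ℕ) ^ (6 * (m + 1)) = 2 ^ (6 * m) * 64 := by rw [Nat.mul_add, pow_add]; norm_num
    have h4 : (64:ℕ) ^ m = 2 ^ (6 * m) := by rw [pow_mul]; norm_num
    rw [h3, h4]
    have h5 : 2 ^ (6 * m) * f m ≤ 2 ^ (6 * m) * 63 := Nat.mul_le_mul_left _ (by omega)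
    omega

theorem land_small (f : ℕ → ℕ) : ∀ m : ℕ, (∀ i < m, f i < 32) →
    Nat.land (∑ i ∈ Finset.range m, 64 ^ i * f i) (∑ i ∈ Finset.range m, 64 ^ i * 32) = 0 := by
  intro m
  induction m with
  | zero => intro _; rw [Finset.sum_range_zero, Finset.sum_range_zero]; rfl
  | succ m ih =>
    intro h
    rw [Finset.sum_range_succ, Finset.sum_range_succ, Nat.add_comm, Nat.add_comm (∑ i ∈ Finset.range m, 64 ^ i * 32)]
    have h4 : (64:ℕ) ^ m = 2 ^ (6 * m) := by rw [pow_mul]; norm_num
    rw [h4, land_high _ _ _ _ _ (sum_lt f m (fun i hi => by have := h i (by omega); omega))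
      (sum_lt (fun _ => 32) m (fun i hi => by norm_num)), ih (fun i hi => h i (by omega))]
    have h5 := h m (by omega)
    have : Nat.land (f m) 32 = 0 := by
      generalize f m = v at h5
      interval_cases v <;> rfl
    rw [this]; simp

theorem land_big (f : ℕ → ℕ) : ∀ m : ℕ, (∀ i < m, 32 ≤ f i ∧ f i < 64) →
    Nat.land (∑ i ∈ Finset.range m, 64 ^ i * f i) (∑ i ∈ Finset.range m, 64 ^ i * 32)
      = ∑ i ∈ Finset.range m, 64 ^ i * 32 := by
  intro m
  induction m with
  | zero => intro _; rw [Finset.sum_range_zero, Finset.sum_range_zero]; rfl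
  | succ m ih =>
    intro h
    rw [Finset.sum_range_succ, Finset.sum_range_succ, Nat.add_comm, Nat.add_comm (∑ i ∈ Finset.range m, 64 ^ i * 32)]
    have h4 : (64:ℕ) ^ m = 2 ^ (6 * m) := by rw [pow_mul]; norm_num
    rw [h4, land_high _ _ _ _ _ (sum_lt f m (fun i hi => by have := h i (by omega); omega))
      (sum_lt (fun _ => 32) m (fun i hi => by norm_num)), ih (fun i hi => h i (by omega))]
    have h5 := h m (by omega)
    have : Nat.land (f m) 32 = 32 := by
      obtain ⟨h6, h7⟩ := h5
      generalize f m = v at h6 h7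
      interval_cases v <;> rfl
    rw [this]

/-- The number of columns in which row `r` (a bit mask) differs from the pattern `b`. -/
def mism (n : ℕ) (r : ℕ) (b : ℕ → Bool) : ℕ :=
  ∑ j ∈ Finset.range n, (if Nat.testBit r j = b j then 0 else 1)

theorem mism_le (n r : ℕ) (b : ℕ → Bool) : mism n r b ≤ n := by
  unfold mism
  calc _ ≤ ∑ j ∈ Finset.range n, 1 := Finset.sum_le_sum (fun j _ => by split_ifs <;> omega)
    _ = n := by simp

/-- The packed columns: first component for `+`, second for `-`. -/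
def colPair (m : ℕ) (row : ℕ → ℕ) (j : ℕ) : ℕ × ℕ :=
  (∑ i ∈ Finset.range m, 64 ^ i * (if Nat.testBit (row i) j = true then 0 else 1),
   ∑ i ∈ Finset.range m, 64 ^ i * (if Nat.testBit (row i) j = false then 0 else 1))

theorem pick_eq (m n : ℕ) (row : ℕ → ℕ) (b : ℕ → Bool) :
    pick ((List.range n).map (colPair m row)) b
      = ∑ i ∈ Finset.range m, 64 ^ i * mism n (row i) b := by
  rw [pick_ofFn]
  unfold mism
  simp_rw [Finset.mul_sum]
  rw [Finset.sum_comm]
  apply Finset.sum_congr rfl
  intro j _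
  by_cases hb : b j
  · simp [colPair, hb]
  · simp only [Bool.not_eq_true] at hb
    simp [colPair, hb]

/-- Main soundness statement. `R < 32`, `n < 32`. -/
theorem cover (m n R : ℕ) (row : ℕ → ℕ) (hR : R < 31) (hn : n < 32)
    (H K1 K2 : ℕ)
    (hH : H = ∑ i ∈ Finset.range m, 64 ^ i * 32)
    (hK1 : K1 = ∑ i ∈ Finset.range m, 64 ^ i * (32 - (n - R)))
    (hK2 : K2 = ∑ i ∈ Finset.range m, 64 ^ i * (31 - R))
    (l : List (ℕ × ℕ)) (hl : l = (List.range n).map (colPair m row))
    (hgo : go H K1 K2 l 0 = true) (b : ℕ → Bool) :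
    ∃ i < m, mism n (row i) b ≤ R ∨ n - R ≤ mism n (row i) b := by
  by_contra hcon
  push Not at hcon
  refine go_sound H K1 K2 l 0 b hgo ?_
  rw [hl, pick_eq, hK1, hK2, Nat.zero_add, ← Finset.sum_add_distrib, ← Finset.sum_add_distrib, hH]
  simp_rw [← Nat.mul_add]
  constructor
  · apply land_small
    intro i hi
    have := hcon i hi
    omega
  · apply land_big
    intro i hi
    have h1 := hcon i hi
    have h2 := mism_le n (row i) b
    omega

end Pool.Agent.Lib.MP_ad55ca_co
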